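import Pool.Agent.W192.CY.Stn
import Pool.Agent.H442R2.KF.Weil

/-!
# Kloosterman sums to a general modulus
-/

set_option autoImplicit false

namespace Pool.Agent.W305.CY

open Pool.Agent.W192.CY Pool.Agent.H442R2.KF.TaskB

/-- the constant at the prime two -/
noncomputable def fK (K : ℝ) (q : ℕ) : ℝ := if 2 ∣ q then K else 1

theorem fK_nonneg {K : ℝ} (hK : 1 ≤ K) (q : ℕ) : 0 ≤ fK K q := by
  unfold fK
  split_ifs <;> linarith

theorem fK_mul {K : ℝ} {a b : ℕ} (h : Nat.Coprime a b) : fK K (a * b) = fK K a * fK K b := by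
  unfold fK
  by_cases ha : 2 ∣ a
  · have hb : ¬ 2 ∣ b := fun hb => by
      have := Nat.dvd_gcd ha hb
      rw [h] at this
      omega
    rw [if_pos ha, if_neg hb, if_pos (Dvd.dvd.mul_right ha b), mul_one]
  · by_cases hb : 2 ∣ b
    · rw [if_neg ha, if_pos hb, if_pos (Dvd.dvd.mul_left hb a), one_mul]
    · rw [if_neg ha, if_neg hb, if_neg, mul_one]
      intro hab
      rcases (Nat.Prime.dvd_mul Nat.prime_two).1 hab with h1 | h1
      · exact ha h1
      · exact hb h1

theorem Kl_gen {C : ℝ} (hW : ∀ (p k : ℕ) [NeZero (p ^ k)], p.Prime → 2 ≤ k →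
    ∀ (a b : ZMod (p ^ k)), IsUnit b →
    ‖∑ u : (ZMod (p ^ k))ˣ, (ZMod.stdAddChar (N := p ^ k)
      (a * (u : ZMod (p ^ k)) + b * ((u⁻¹ : (ZMod (p ^ k))ˣ) : ZMod (p ^ k))) : ℂ)‖ ≤
      (if p = 2 then C else 2) * Real.sqrt ((p : ℝ) ^ k)) (q : ℕ) :
    ∀ [NeZero q], ∀ w c : ZMod q, IsUnit c →
    ‖Kl q w c‖ ≤ fK (max C 1) q * 2 ^ q.primeFactors.card * Real.sqrt q := by
  have hK : (1 : ℝ) ≤ max C 1 := le_max_right _ _
  induction q using Nat.recOnPosPrimePosCoprime with
  | zero => intro h; exact absurd rfl h.out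
  | one =>
    intro _ w c hc
    unfold Kl
    refine (norm_sum_le _ _).trans ?_
    have h2 : ∀ u : (ZMod 1)ˣ, ‖(ZMod.stdAddChar (w * (u : ZMod 1) +
        c * ((u⁻¹ : (ZMod 1)ˣ) : ZMod 1)) : ℂ)‖ ≤ 1 := by
      intro u
      rw [ZMod.stdAddChar_apply]
      exact (Circle.norm_coe _).le
    refine (Finset.sum_le_sum fun u _ => h2 u).trans ?_
    rw [Finset.sum_const, Finset.card_univ]
    have h3 : Fintype.card (ZMod 1)ˣ = 1 := by rw [ZMod.card_units_eq_totient]; simp
    rw [h3]
    unfold fK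
    simp
  | prime_pow p k hp hk =>
    intro _ w c hc
    have hk0 : k ≠ 0 := by omega
    have hcard : (p ^ k).primeFactors.card = 1 := by
      rw [Nat.primeFactors_prime_pow hk0 hp, Finset.card_singleton]
    have hsq : 0 ≤ Real.sqrt ((p ^ k : ℕ) : ℝ) := Real.sqrt_nonneg _
    rw [hcard, pow_one]
    by_cases hk1 : k = 1
    · subst hk1
      have e : p ^ 1 = p := pow_one p
      generalize p ^ 1 = q at *
      subst e
      have : Fact q.Prime := ⟨hp⟩
      have b1 := Kl_prime q w c hc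
      have h1 : (1 : ℝ) ≤ fK (max C 1) q := by
        unfold fK
        split_ifs <;> linarith
      refine b1.trans ?_
      have : (0 : ℝ) ≤ 2 * Real.sqrt q := by positivity
      calc 2 * Real.sqrt q = 1 * (2 * Real.sqrt q) := by ring
        _ ≤ fK (max C 1) q * (2 * Real.sqrt q) := mul_le_mul_of_nonneg_right h1 this
        _ = _ := by ring
    · have b1 := hW p k hp (by omega) w c hc
      have hc1 : (if p = 2 then C else 2) ≤ fK (max C 1) (p ^ k) * 2 := by
        unfold fK
        by_cases h2 : p = 2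
        · subst h2
          rw [if_pos rfl, if_pos (dvd_pow_self 2 hk0)]
          have := le_max_left C 1
          linarith
        · rw [if_neg h2, if_neg]
          · norm_num
          · intro h
            exact h2 ((Nat.prime_dvd_prime_iff_eq Nat.prime_two hp).1
              (Nat.Prime.dvd_of_dvd_pow Nat.prime_two h)).symm
      unfold Kl
      refine b1.trans ?_
      push_cast
      exact mul_le_mul_of_nonneg_right hc1 (Real.sqrt_nonneg _)
  | coprime a b ha hb hab iha ihb =>
    intro _ w c hc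
    have ha0 : a ≠ 0 := by omega
    have hb0 : b ≠ 0 := by omega
    have : NeZero a := ⟨ha0⟩
    have : NeZero b := ⟨hb0⟩
    obtain ⟨α, β, hαβ⟩ : ∃ α β : ℤ, α * b + β * a = 1 := by
      have h2 : IsCoprime (b : ℤ) (a : ℤ) := Nat.isCoprime_iff_coprime.mpr hab.symm
      obtain ⟨x, y, hxy⟩ := h2
      exact ⟨x, y, hxy⟩
    have hc2 : IsUnit (ZMod.chineseRemainder hab c) := hc.map _
    rw [Prod.isUnit_iff] at hc2
    have hα : IsUnit ((α : ℤ) : ZMod a) := unit_of_bezout a b α β hαβ
    have hβ : IsUnit ((β : ℤ) : ZMod b) := unit_of_bezout b a β α (by linarith)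
    rw [Kl_mul a b hab α β hαβ, norm_mul]
    have b1 := iha ((α : ZMod a) * (ZMod.chineseRemainder hab w).1)
      ((α : ZMod a) * (ZMod.chineseRemainder hab c).1) (hα.mul hc2.1)
    have b2 := ihb ((β : ZMod b) * (ZMod.chineseRemainder hab w).2)
      ((β : ZMod b) * (ZMod.chineseRemainder hab c).2) (hβ.mul hc2.2)
    have hcard : (a * b).primeFactors.card = a.primeFactors.card + b.primeFactors.card := by
      rw [hab.primeFactors_mul, Finset.card_union_of_disjoint hab.disjoint_primeFactors]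
    have n1 := fK_nonneg hK a
    have n2 := fK_nonneg hK b
    rw [hcard, fK_mul hab, Nat.cast_mul, Real.sqrt_mul (by positivity)]
    calc _ ≤ (fK (max C 1) a * 2 ^ a.primeFactors.card * Real.sqrt a) *
          (fK (max C 1) b * 2 ^ b.primeFactors.card * Real.sqrt b) :=
          mul_le_mul b1 b2 (norm_nonneg _) (by positivity)
      _ = _ := by rw [pow_add]; ring

theorem two_pow_omega (q : ℕ) (hq : q ≠ 0) : 2 ^ q.primeFactors.card ≤ q.divisors.card := by
  rw [Nat.card_divisors hq, ← Finset.prod_const]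
  refine Finset.prod_le_prod' fun p hp => ?_
  have h1 : 1 ≤ q.factorization p :=
    (Nat.prime_of_mem_primeFactors hp).factorization_pos_of_dvd hq (Nat.dvd_of_mem_primeFactors hp)
  omega

theorem t_weil (h : G_WPP) (hd : S_DIV) : G_WEIL := by
  intro η hη
  obtain ⟨C, hC, hW⟩ := h
  obtain ⟨D, hD, hdiv, -⟩ := hd η hη
  refine ⟨max C 1 * D, by positivity, ?_⟩
  intro q _ a b hb
  have hq0 : q ≠ 0 := NeZero.ne q
  have hq1 : 1 ≤ q := Nat.one_le_iff_ne_zero.2 hq0
  have hqr : (0 : ℝ) < q := by exact_mod_cast hq1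
  have b1 := Kl_gen hW q a b hb
  unfold Kl at b1
  refine b1.trans ?_
  have hf : fK (max C 1) q ≤ max C 1 := by
    unfold fK
    split_ifs
    · exact le_rfl
    · exact le_max_right _ _
  have h2 : (2 : ℝ) ^ q.primeFactors.card ≤ D * (q : ℝ) ^ η := by
    refine le_trans ?_ (hdiv q hq1)
    exact_mod_cast two_pow_omega q hq0
  have hM : 0 < max C 1 := lt_of_lt_of_le one_pos (le_max_right _ _)
  calc fK (max C 1) q * 2 ^ q.primeFactors.card * Real.sqrt q
      ≤ max C 1 * (D * (q : ℝ) ^ η) * Real.sqrt q := by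
        refine mul_le_mul_of_nonneg_right ?_ (Real.sqrt_nonneg _)
        exact mul_le_mul hf h2 (by positivity) hM.le
    _ = max C 1 * D * ((q : ℝ) ^ (1 / 2 : ℝ) * (q : ℝ) ^ η) := by
        rw [Real.sqrt_eq_rpow]
        ring
    _ = max C 1 * D * (q : ℝ) ^ (1 / 2 + η) := by rw [← Real.rpow_add hqr]

end Pool.Agent.W305.CY
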